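import Pool.Agent.Helper89.MS.Defs

/-! MP_8815b4_co: MAINW, the induction on the size of the ground set. -/

open Finset

namespace Pool.Agent.Helper30.MS

open _root_.MS

theorem W_succ (k l c M : ℕ) : W k l c (M + 1) = W k l c M + W k l (c + 1) M := by
  unfold W
  rw [← Polynomial.coeff_add]
  congr 1
  ring

theorem wt_mono {v : ℕ → ℝ} (hv : ∀ x, 0 ≤ v x) {F G : Finset (Finset ℕ)} (h : F ⊆ G) :
    wt v F ≤ wt v G :=
  Finset.sum_le_sum_of_subset_of_nonneg h fun S _ _ => hv _

/-- MAINW for fixed `k, l, t, n`, with exactly the hypotheses on the weights which are needed -/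
theorem mainW_core (hS : STEPStm) (k l t n : ℕ) (ht : 1 ≤ t) (htn : t ≤ n)
    (hH : ∀ m, t < m → m ≤ n → Hyp t m (fun c => (W k l c (n - m) : ℝ))) :
    ∀ G, TI t n G → ∃ r, t + 2 * r ≤ n ∧
      wt (fun c => (W k l c 0 : ℝ)) G ≤
        wt (fun c => (W k l c (n - (t + 2 * r)) : ℝ))
          ((range (t + 2 * r)).powerset.filter (fun S => t + r ≤ #S)) := by
  intro G hG
  have key : ∀ m : ℕ, t ≤ m → m ≤ n → ∀ G, TI t m G → ∃ r, t + 2 * r ≤ m ∧
      wt (fun c => (W k l c (n - m) : ℝ)) G ≤
        wt (fun c => (W k l c (n - (t + 2 * r)) : ℝ))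
          ((range (t + 2 * r)).powerset.filter (fun S => t + r ≤ #S)) := by
    intro m htm
    induction m, htm using Nat.le_induction with
    | base =>
      intro _ G hG
      refine ⟨0, by omega, ?_⟩
      refine wt_mono (fun x => Nat.cast_nonneg _) ?_
      intro S hS
      rw [Finset.mem_filter, Finset.mem_powerset]
      refine ⟨hG.1 S hS, ?_⟩
      have := hG.2 S hS S hS
      rw [Finset.inter_self] at this
      simpa using this
    | succ m htm ih =>
      intro hmn G hG
      have hHyp := hH (m + 1) (by omega) hmn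
      rcases hS t (m + 1) _ ht (by omega) hHyp G hG with ⟨F', hF', hle⟩ | ⟨r, hr, hle⟩
      · obtain ⟨r, hr, h⟩ := ih (by omega) F' (by simpa using hF')
        refine ⟨r, by omega, hle.trans (le_trans (le_of_eq ?_) h)⟩
        unfold wt
        refine Finset.sum_congr rfl fun S _ => ?_
        have h1 : n - m = n - (m + 1) + 1 := by omega
        rw [h1]
        show ((W k l #S (n - (m + 1)) : ℕ) : ℝ) + ((W k l (#S + 1) (n - (m + 1)) : ℕ) : ℝ) =
          ((W k l #S (n - (m + 1) + 1) : ℕ) : ℝ)
        rw [W_succ]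
        push_cast
        ring
      · refine ⟨r, by omega, ?_⟩
        rw [hr] at hle
        rw [hr]
        exact hle
  have h := key n htn le_rfl G hG
  rw [Nat.sub_self] at h
  exact h

end Pool.Agent.Helper30.MS
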