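import Pool.Agent.Helper30.MS.D2
import Pool.Agent.Helper30.MS.MainW

/-! MP_8815b4_co, part D of the text: the inequality K1 for the numbers `W k l c M`. -/

namespace Pool.Agent.Helper30.MS

open _root_.MS

theorem K1_int (k l M c j : ℕ) (hl : 2 ≤ l) (hj : j ≤ c) (h : 2 * k ≤ 2 * c + M + 2) :
    (W k l (c + 1) M : ℤ) * (W k l (c - j) M + W k l (c + j) M) ≤
      W k l c M * (W k l (c - j + 1) M + W k l (c + j + 1) M) := by
  refine K1_of_U (fun c M => (W k l c M : ℤ)) k M
    (U (fun c M => (W k l c M : ℤ)) ?_ k ?_ ?_ ?_ M) c j hj h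
  · intro c M
    simp only [W_succ]
    push_cast
    ring
  · intro c hc
    simp only [W_zero]
    exact NP_zero_of_lt l c _ (by exact_mod_cast hc)
  · intro a q haq
    unfold DD
    simp only [W_zero]
    have := D2 k l a q haq.le
    linarith
  · intro a ha
    have := D3 k l a hl ha
    unfold DD at *
    simp only [W_zero] at *
    exact this

/-- **K1** for the weights `W k l c M` (real form) -/
theorem K1_real (k l M c j : ℕ) (hl : 2 ≤ l) (hj : j ≤ c) (h : 2 * k ≤ 2 * c + M + 2) :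
    (W k l (c + 1) M : ℝ) * (W k l (c - j) M + W k l (c + j) M) ≤
      W k l c M * (W k l (c - j + 1) M + W k l (c + j + 1) M) := by
  exact_mod_cast K1_int k l M c j hl hj h

/-- the field `K1` of `Hyp` in `HYPWStm` -/
theorem K1_field (k l t m n : ℕ) (hmn : m ≤ n) (hl : 2 ≤ l) (hn : 2 * k ≤ n + t) :
    ∀ r c j, 2 ≤ t → m = t + 2 * r → c + 1 = t + r → 1 ≤ j → j + 1 ≤ r →
      0 < (fun c => (W k l c (n - m) : ℝ)) (c + 1) →
      (fun c => (W k l c (n - m) : ℝ)) (c + 1) *
        ((fun c => (W k l c (n - m) : ℝ)) (c - j) + (fun c => (W k l c (n - m) : ℝ)) (c + j)) ≤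
      (fun c => (W k l c (n - m) : ℝ)) c *
        ((fun c => (W k l c (n - m) : ℝ)) (c - j + 1) +
          (fun c => (W k l c (n - m) : ℝ)) (c + j + 1)) := by
  intro r c j ht hm hc _ hj _
  exact K1_real k l (n - m) c j hl (by omega) (by omega)

end Pool.Agent.Helper30.MS
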