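import Pool.Agent.Helper89.MS.Sheet

/-! MP_8815b4_co: package B10. -/

open Finset

namespace Pool.Agent.Helper30.MS

open _root_.MS

theorem wz_mono {v : ℕ → ℝ} (hv : ∀ x, 0 ≤ v x) {a : ℕ} {X Y : Finset (Finset ℕ)} (h : X ⊆ Y) :
    wz v a X ≤ wz v a Y :=
  Finset.sum_le_sum_of_subset_of_nonneg h fun _ _ _ => hv _

theorem wz_sdiff {v : ℕ → ℝ} {a : ℕ} {X Y : Finset (Finset ℕ)} (h : X ⊆ Y) :
    wz v a (Y \ X) = wz v a Y - wz v a X := by
  unfold wz
  rw [← Finset.sum_sdiff h]
  ring

theorem le_wz {v : ℕ → ℝ} (hv : ∀ x, 0 ≤ v x) {a : ℕ} {X : Finset (Finset ℕ)} {y : Finset ℕ}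
    (h : y ∈ X) : v (a + #y) ≤ wz v a X :=
  Finset.single_le_sum (f := fun z => v (a + #z)) (fun _ _ => hv _) h

/-- in the case `h = 0` all members have at least `a` elements below `L`, and so `NN` is empty -/
theorem no_NN {t m L a : ℕ} {v : ℕ → ℝ} {F : Finset (Finset ℕ)} (ht : 1 ≤ t) (hg : Good t m v F)
    (hL : L + 2 = m) (haL : 2 * a = L + t) (hall : ∀ A, A ⊆ range L → #A = a → A ∈ F)
    (hale : a ≤ L) {S : Finset ℕ} (hS : S ∈ F) (hm : m - 1 ∈ S) : S.erase (m - 1) ∈ F := by
  have h1 : a ≤ #(S ∩ range L) := by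
    by_contra hlt
    push Not at hlt
    -- choose `A` of size `a` in `range L` with small intersection
    have hsub : S ∩ range L ⊆ range L := Finset.inter_subset_right
    have hc : #(range L \ (S ∩ range L)) = L - #(S ∩ range L) := by
      rw [Finset.card_sdiff_of_subset hsub, Finset.card_range]
    rcases Nat.lt_or_ge (#(range L \ (S ∩ range L))) a with hcase | hcase
    · -- `A` contains the complement
      obtain ⟨A, hA1, hA2, hA3⟩ := Finset.exists_subsuperset_card_eq
        (Finset.sdiff_subset : range L \ (S ∩ range L) ⊆ range L) hcase.le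
        (by rw [Finset.card_range]; exact hale)
      have hAF := hall A hA2 hA3
      have hti := hg.ti.2 A hAF S hS
      have hcap : A ∩ S ⊆ A \ (range L \ (S ∩ range L)) := by
        intro x hx
        rw [Finset.mem_inter] at hx
        rw [Finset.mem_sdiff]
        refine ⟨hx.1, fun h => ?_⟩
        rw [Finset.mem_sdiff, Finset.mem_inter] at h
        exact h.2 ⟨hx.2, hA2 hx.1⟩
      have := Finset.card_le_card hcap
      rw [Finset.card_sdiff_of_subset hA1, hA3, hc] at this
      have hle : #(S ∩ range L) ≤ L := by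
        simpa using Finset.card_le_card hsub
      omega
    · obtain ⟨A, hA1, hA2⟩ := Finset.exists_subset_card_eq hcase
      have hAF := hall A (hA1.trans Finset.sdiff_subset) hA2
      have hti := hg.ti.2 A hAF S hS
      have hcap : A ∩ S = ∅ := by
        rw [Finset.eq_empty_iff_forall_notMem]
        intro x hx
        rw [Finset.mem_inter] at hx
        have h := hA1 hx.1
        rw [Finset.mem_sdiff, Finset.mem_inter] at h
        exact h.2 ⟨hx.2, h.1⟩
      rw [hcap] at hti
      simp at hti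
      omega
  obtain ⟨A, hA1, hA2⟩ := Finset.exists_subset_card_eq h1
  have hAF := hall A (hA1.trans Finset.inter_subset_right) hA2
  refine hg.up A hAF _ ?_ ((Finset.erase_subset _ _).trans (hg.ti.1 S hS))
  intro x hx
  have h2 := hA1 hx
  rw [Finset.mem_inter, Finset.mem_range] at h2
  rw [Finset.mem_erase]
  exact ⟨by omega, h2.1⟩

theorem b10 (h7 : B7Stm) (h8 : B8Stm) (h9 : B9Stm) (hUV : UVStm) : B10Stm := by
  intro t m r c v F ht hH hg hm hr hc hvc hI1 hNN hex
  have hv := hH.nn
  by_contra hsym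
  -- the maximal `L`
  have h0 : Sym 0 F := fun S _ i j hi _ _ _ => absurd hi (Nat.not_lt_zero i)
  classical
  obtain ⟨L, hLm, hLs, hLn⟩ : ∃ L, L < m ∧ Sym L F ∧ ¬ Sym (L + 1) F := by
    by_contra hno
    push Not at hno
    have : ∀ L, L ≤ m → Sym L F := by
      intro L
      induction L with
      | zero => intro _; exact h0
      | succ L ih => intro h; exact hno L (by omega) (ih (by omega))
    exact hsym (this m le_rfl)
  obtain ⟨u1, u2, u3, u4, u5, u6, u7⟩ := hUV t m L v F hg hLm hLs
  obtain ⟨a, ha1, haL, y, hyU, hyV⟩ := u6 hLn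
  have h2a := h7 t m L a v F ht hv hg hLm hLs ha1 ⟨y, hyU, hyV⟩
  have hother : ∀ b, 1 ≤ b → b ≠ a → ∀ y ∈ Ulev L m F b, y ∈ Vlev L m F b := by
    intro b hb hba y hy
    by_contra hyb
    have := h7 t m L b v F ht hv hg hLm hLs hb ⟨y, hy, hyb⟩
    omega
  obtain ⟨hVU, hJ⟩ := h8 t m L a v F (by omega) hv hg hLm hLs ha1 haL h2a hother
  obtain ⟨s, hs⟩ : ∃ s, a = t + s := ⟨a - t, by omega⟩
  have hLs' : L = t + 2 * s := by omega
  have hsr : s < r := by omega
  have hQ := h9 t m r s L a c v F ht hH hg hLs hm hLs' hsr hs hc hvc hNN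
  have hZY : ZZ L m F a ⊆ Y1 L m F a := Finset.filter_subset _ _
  rw [wz_sdiff hZY] at hQ
  have hWV := wz_mono hv (a := a) hVU
  have hYn : 0 ≤ wz v a (Y1 L m F a) := Finset.sum_nonneg fun _ _ => hv _
  have hZn : 0 ≤ wz v a (ZZ L m F a) := Finset.sum_nonneg fun _ _ => hv _
  have hZY' := wz_mono hv (a := a) hZY
  have hcpos : (0 : ℝ) < (L.choose (a - 1) : ℝ) := by
    exact_mod_cast Nat.choose_pos (by omega)
  have hcpos1 : (0 : ℝ) < ((L + 1).choose a : ℝ) := by
    exact_mod_cast Nat.choose_pos (by omega)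
  have hcpos2 : (0 : ℝ) < (L.choose a : ℝ) := by
    exact_mod_cast Nat.choose_pos haL
  obtain ⟨y', hy'U, hy'V, hy'v⟩ := u7 a ha1 y hyU hyV
  rcases hYn.eq_or_lt with hY0 | hYpos
  · -- `w(Y1) = 0`
    have hZ0 : wz v a (ZZ L m F a) = 0 := le_antisymm (by linarith) hZn
    rw [← hY0, hZ0] at hJ
    have hle : wz v a (UU L m F a) - wz v a (Vlev L m F a) ≤ 0 := by
      by_contra hpos
      push Not at hpos
      have := mul_pos hcpos hpos
      linarith
    by_cases hcase : Ico (L + 1) m \ y' ∈ Ulev L m F a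
    · have : y' ∈ Y1 L m F a := by
        unfold Y1
        rw [Finset.mem_filter]
        exact ⟨hy'U, hcase⟩
      have := le_wz hv (a := a) this
      linarith
    · have hin : y' ∈ UU L m F a \ Vlev L m F a := by
        rw [Finset.mem_sdiff]
        refine ⟨?_, hy'V⟩
        unfold UU
        rw [Finset.mem_filter]
        exact ⟨hy'U, hcase⟩
      have := le_wz hv (a := a) hin
      rw [wz_sdiff hVU] at this
      linarith
  · -- `w(Y1) > 0`
    have hcr : (c : ℝ) = t + r - 1 := by
      have : (c : ℝ) + 1 = t + r := by exact_mod_cast hc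
      linarith
    have hr0 : (0 : ℝ) < r := by exact_mod_cast hr
    have e1 : (r : ℝ) * wz v a (Y1 L m F a) ≤ (r + c) * wz v a (ZZ L m F a) := by
      have h1 : (r : ℝ) * (v (c + 1) * (wz v a (Y1 L m F a) - wz v a (ZZ L m F a))) ≤
          (r : ℝ) * (v c * wz v a (ZZ L m F a)) := mul_le_mul_of_nonneg_left hQ hr0.le
      have h2 : (r * v c) * wz v a (ZZ L m F a) ≤ (c * v (c + 1)) * wz v a (ZZ L m F a) :=
        mul_le_mul_of_nonneg_right hI1 hZn
      have h3 : v (c + 1) * (r * wz v a (Y1 L m F a)) ≤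
          v (c + 1) * ((r + c) * wz v a (ZZ L m F a)) := by nlinarith
      exact le_of_mul_le_mul_left h3 hvc
    have e2 : ((L + 1).choose a : ℝ) * wz v a (ZZ L m F a) ≤
        (L.choose a : ℝ) * wz v a (Y1 L m F a) := by
      have : 0 ≤ (L.choose (a - 1) : ℝ) * (wz v a (UU L m F a) - wz v a (Vlev L m F a)) :=
        mul_nonneg hcpos.le (by linarith)
      linarith
    have e3 : ((L + 1).choose a : ℝ) * (r : ℝ) ≤ (r + c) * (L.choose a : ℝ) := by
      have hc0 : (0 : ℝ) ≤ c := Nat.cast_nonneg c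
      have h1 : ((L + 1).choose a : ℝ) * (r * wz v a (Y1 L m F a)) ≤
          ((L + 1).choose a : ℝ) * ((r + c) * wz v a (ZZ L m F a)) :=
        mul_le_mul_of_nonneg_left e1 hcpos1.le
      have h2 : (r + c : ℝ) * (((L + 1).choose a : ℝ) * wz v a (ZZ L m F a)) ≤
          (r + c) * ((L.choose a : ℝ) * wz v a (Y1 L m F a)) :=
        mul_le_mul_of_nonneg_left e2 (by linarith)
      have h3 : wz v a (Y1 L m F a) * (((L + 1).choose a : ℝ) * (r : ℝ)) ≤
          wz v a (Y1 L m F a) * ((r + c) * (L.choose a : ℝ)) := by linarith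
      exact le_of_mul_le_mul_left h3 hYpos
    have e3' : (L + 1).choose a * r ≤ (r + c) * L.choose a := by exact_mod_cast e3
    have e4 : (L + 1).choose a * (L + 1 - a) = L.choose a * (L + 1) :=
      (Nat.choose_mul_succ_eq L a).symm
    have hLa : L + 1 - a = s + 1 := by omega
    rw [hLa] at e4
    have e5 : L.choose a * ((L + 1) * r) ≤ L.choose a * ((r + c) * (s + 1)) := by
      calc L.choose a * ((L + 1) * r) = (L.choose a * (L + 1)) * r := by ring
        _ = ((L + 1).choose a * (s + 1)) * r := by rw [e4]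
        _ = ((L + 1).choose a * r) * (s + 1) := by ring
        _ ≤ ((r + c) * L.choose a) * (s + 1) := Nat.mul_le_mul_right _ e3'
        _ = L.choose a * ((r + c) * (s + 1)) := by ring
    have e6 : (L + 1) * r ≤ (r + c) * (s + 1) :=
      Nat.le_of_mul_le_mul_left e5 (Nat.choose_pos haL)
    have hrs : r = s + 1 := by
      by_contra hne
      obtain ⟨d, hd⟩ : ∃ d, r = s + 2 + d := ⟨r - s - 2, by omega⟩
      obtain ⟨t', ht'⟩ : ∃ t', t = t' + 2 := ⟨t - 2, by omega⟩
      have hcc : c = t' + 1 + r := by omega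
      rw [hLs', hcc, ht', hd] at e6
      nlinarith
    have hLm2 : L + 2 = m := by omega
    -- `∅ ∈ U`
    have hYne : ∃ z, z ∈ Y1 L m F a := by
      by_contra hno
      push Not at hno
      have : Y1 L m F a = ∅ := Finset.eq_empty_of_forall_notMem hno
      rw [this] at hYpos
      simp [wz] at hYpos
    obtain ⟨z, hz⟩ := hYne
    unfold Y1 at hz
    rw [Finset.mem_filter] at hz
    have hIco : Ico (L + 1) m = {L + 1} := by
      ext x
      rw [Finset.mem_Ico, Finset.mem_singleton]
      omega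
    have hzsub : z ⊆ Ico (L + 1) m := by
      have := hz.1
      unfold Ulev at this
      rw [Finset.mem_filter, Finset.mem_powerset] at this
      exact this.1
    have hempty : (∅ : Finset ℕ) ∈ Ulev L m F a := by
      rw [hIco] at hzsub hz
      rcases Finset.subset_singleton_iff.mp hzsub with h | h
      · rw [h] at hz; exact hz.1
      · rw [h, Finset.sdiff_self] at hz; exact hz.2
    have hall : ∀ A, A ⊆ range L → #A = a → A ∈ F := by
      intro A h1 h2
      have := u1 a ∅ hempty A h1 h2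
      rwa [Finset.union_empty] at this
    obtain ⟨S, hS, _⟩ := hex
    unfold NN at hS
    rw [Finset.mem_filter] at hS
    exact hS.2.2 (no_NN (by omega) hg hLm2 h2a hall haL hS.1 hS.2.1)

end Pool.Agent.Helper30.MS
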