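import Pool.Agent.Helper30.MS.D4
import Pool.Agent.Helper89.MS.Defs

/-! MP_8815b4_co, part D of the text: D2 (log-concavity) and D3. -/

open Finset Polynomial

namespace Pool.Agent.Helper30.MS

/-- strong log-concavity on `ℤ` -/
def LC (N : ℤ → ℤ) : Prop := ∀ u v x y : ℤ, x + y = u + v → u ≤ x → u ≤ y → N u * N v ≤ N x * N y

theorem LC_of_adj {N : ℤ → ℤ} (h : ∀ a b : ℤ, a ≤ b → N (a - 1) * N (b + 1) ≤ N a * N b) : LC N := by
  have key : ∀ (i : ℕ) (x y : ℤ), x ≤ y → N (x - i) * N (y + i) ≤ N x * N y := by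
    intro i
    induction i with
    | zero => intro x y _; simp
    | succ i ih =>
      intro x y hxy
      refine le_trans ?_ (ih x y hxy)
      have := h (x - i) (y + i) (by omega)
      push_cast
      have e1 : x - ((i : ℤ) + 1) = x - i - 1 := by ring
      have e2 : y + ((i : ℤ) + 1) = y + i + 1 := by ring
      rw [e1, e2]
      exact this
  intro u v x y hs hx hy
  rcases le_total x y with hxy | hxy
  · obtain ⟨i, hi⟩ := Int.eq_ofNat_of_zero_le (sub_nonneg.mpr hx)
    have h1 : u = x - i := by omega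
    have h2 : v = y + i := by omega
    rw [h1, h2]
    exact key i x y hxy
  · obtain ⟨i, hi⟩ := Int.eq_ofNat_of_zero_le (sub_nonneg.mpr hy)
    have h1 : u = y - i := by omega
    have h2 : v = x + i := by omega
    rw [h1, h2, mul_comm (N x)]
    exact key i y x hxy

/-- window sums -/
def win (l : ℕ) (N : ℤ → ℤ) (s : ℤ) : ℤ := ∑ i ∈ Icc 1 l, N (s - i)

theorem win_succ_sub (l : ℕ) (N : ℤ → ℤ) (s : ℤ) :
    win l N (s + 1) = win l N s + N s - N (s - l) := by
  unfold win
  induction l with
  | zero => simp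
  | succ l ih =>
    rw [Finset.sum_Icc_succ_top (by omega), Finset.sum_Icc_succ_top (by omega), ih]
    push_cast
    have e1 : s + 1 - ((l : ℤ) + 1) = s - l := by ring
    rw [e1]
    ring

theorem LC_win {N : ℤ → ℤ} (h : LC N) (l : ℕ) : LC (win l N) := by
  refine LC_of_adj fun a b hab => ?_
  have ha := win_succ_sub l N (a - 1)
  have hb := win_succ_sub l N b
  rw [sub_add_cancel] at ha
  have h1 : 0 ≤ N (a - 1) * win l N (b + 1) - N b * win l N a := by
    unfold win
    rw [Finset.mul_sum, Finset.mul_sum, ← Finset.sum_sub_distrib]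
    refine Finset.sum_nonneg fun i hi => ?_
    rw [Finset.mem_Icc] at hi
    have := h (a - i) b (a - 1) (b + 1 - i) (by ring) (by omega) (by omega)
    linarith
  have h2 : 0 ≤ win l N a * N (b - l) - N (a - 1 - l) * win l N (b + 1) := by
    unfold win
    rw [Finset.mul_sum, Finset.sum_mul, ← Finset.sum_sub_distrib]
    refine Finset.sum_nonneg fun i hi => ?_
    rw [Finset.mem_Icc] at hi
    have := h (a - 1 - l) (b + 1 - i) (a - i) (b - l) (by ring) (by omega) (by omega)
    linarith
  have e1 : win l N (a - 1) = win l N a - N (a - 1) + N (a - 1 - l) := by linarith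
  have e2 : win l N b = win l N (b + 1) - N b + N (b - l) := by linarith
  rw [e1, e2]
  nlinarith [h1, h2]

/-- coefficients of `P ^ c`, on `ℤ` -/
def NP (l : ℕ) : ℕ → ℤ → ℤ
  | 0 => fun s => if s = 0 then 1 else 0
  | c + 1 => win l (NP l c)

theorem LC_NP (l c : ℕ) : LC (NP l c) := by
  induction c with
  | zero =>
    intro u v x y hs hx hy
    simp only [NP]
    by_cases hu : u = 0 <;> by_cases hv : v = 0
    · subst hu hv
      have hx0 : x = 0 := by omega
      have hy0 : y = 0 := by omega
      simp [hx0, hy0]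
    all_goals
      simp only [hu, hv, if_true, if_false]
      positivity
  | succ c ih => exact LC_win ih l

theorem NP_zero_of_lt (l c : ℕ) : ∀ s : ℤ, s < c → NP l c s = 0 := by
  induction c with
  | zero => intro s hs; simp only [NP]; rw [if_neg (by push_cast at hs; omega)]
  | succ c ih =>
    intro s hs
    simp only [NP, win]
    refine Finset.sum_eq_zero fun i hi => ih _ ?_
    rw [Finset.mem_Icc] at hi
    push_cast at hs
    omega

theorem coeff_P_pow (l c : ℕ) : ∀ k : ℕ, ((((_root_.MS.P l) ^ c).coeff k : ℕ) : ℤ) = NP l c k := by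
  induction c with
  | zero =>
    intro k
    simp only [pow_zero, NP, Polynomial.coeff_one]
    by_cases hk : k = 0
    · simp [hk]
    · rw [if_neg hk, if_neg (by exact_mod_cast hk)]; simp
  | succ c ih =>
    intro k
    rw [pow_succ]
    nth_rewrite 2 [_root_.MS.P]
    rw [Finset.mul_sum, Polynomial.finsetSum_coeff]
    simp only [NP, win]
    push_cast
    refine Finset.sum_congr rfl fun i hi => ?_
    rw [Polynomial.coeff_mul_X_pow']
    by_cases hik : i ≤ k
    · rw [if_pos hik, ih]
      congr 1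
      push_cast [hik]
      ring
    · rw [if_neg hik, NP_zero_of_lt]
      · simp
      · omega

theorem W_zero (k l c : ℕ) : ((_root_.MS.W k l c 0 : ℕ) : ℤ) = NP l c k := by
  unfold _root_.MS.W
  rw [pow_zero, mul_one, coeff_P_pow]

/-- iterated window sums are sums of translates -/
theorem exists_trans (l c j : ℕ) : ∃ (I : Finset (List ℕ)) (f : List ℕ → ℕ), ∀ s : ℤ,
    NP l (c + j) s = ∑ x ∈ I, NP l c (s - f x) := by
  induction j with
  | zero => exact ⟨{[]}, fun _ => 0, fun s => by simp⟩
  | succ j ih =>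
    obtain ⟨I, f, h⟩ := ih
    refine ⟨(Icc 1 l ×ˢ I).image (fun p => p.1 :: p.2), fun x => x.headD 0 + f x.tail, fun s => ?_⟩
    rw [Finset.sum_image]
    · rw [Finset.sum_product]
      show win l (NP l (c + j)) s = _
      unfold win
      refine Finset.sum_congr rfl fun i _ => ?_
      rw [h]
      refine Finset.sum_congr rfl fun x _ => ?_
      congr 1
      simp
      ring
    · rintro ⟨a, b⟩ _ ⟨a', b'⟩ _ h
      simpa using h

theorem D2 (k l a q : ℕ) (h : a ≤ q) :
    NP l a k * NP l (q + 1) k ≤ NP l (a + 1) k * NP l q k := by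
  obtain ⟨j, rfl⟩ := Nat.exists_eq_add_of_le h
  obtain ⟨I, f, hf⟩ := exists_trans l a j
  have e1 : NP l (a + 1) k = ∑ i ∈ Icc 1 l, NP l a (k - i) := rfl
  have e2 : NP l (a + j + 1) k = ∑ i ∈ Icc 1 l, ∑ x ∈ I, NP l a (k - i - f x) := by
    show win l (NP l (a + j)) k = _
    unfold win
    exact Finset.sum_congr rfl fun i _ => hf _
  rw [e1, e2, hf k, Finset.mul_sum, Finset.sum_mul]
  refine Finset.sum_le_sum fun i _ => ?_
  rw [Finset.mul_sum, Finset.mul_sum]
  refine Finset.sum_le_sum fun x _ => ?_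
  rw [mul_comm]
  exact LC_NP l a (k - i - f x) k (k - i) (k - f x) (by ring) (by omega) (by omega)

/-! D3 -/

theorem NP_self (l c : ℕ) (hl : 1 ≤ l) : NP l c c = 1 := by
  induction c with
  | zero => simp [NP]
  | succ c ih =>
    simp only [NP, win]
    rw [Finset.sum_eq_single 1]
    · push_cast
      rw [add_sub_cancel_right]; exact ih
    · intro i hi h1
      rw [Finset.mem_Icc] at hi
      exact NP_zero_of_lt l c _ (by push_cast; omega)
    · intro h; exact absurd (Finset.mem_Icc.mpr ⟨le_rfl, hl⟩) h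

theorem win_two (l : ℕ) (hl : 2 ≤ l) (N : ℤ → ℤ) (s : ℤ) (h : ∀ i : ℕ, 3 ≤ i → N (s - i) = 0) :
    win l N s = N (s - 1) + N (s - 2) := by
  unfold win
  obtain ⟨m, rfl⟩ := Nat.exists_eq_add_of_le hl
  have : Icc 1 (2 + m) = {1, 2} ∪ Icc 3 (2 + m) := by
    ext i
    simp only [Finset.mem_Icc, Finset.mem_union, Finset.mem_insert, Finset.mem_singleton]
    omega
  rw [this, Finset.sum_union]
  · rw [Finset.sum_pair (by norm_num), Finset.sum_eq_zero (s := Icc 3 (2 + m))]
    · push_cast; ring
    · intro i hi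
      rw [Finset.mem_Icc] at hi
      exact h i hi.1
  · rw [Finset.disjoint_left]
    intro i hi h2
    simp only [Finset.mem_insert, Finset.mem_singleton] at hi
    rw [Finset.mem_Icc] at h2
    omega

theorem NP_one (l c : ℕ) (hl : 2 ≤ l) : NP l c (c + 1) = c := by
  induction c with
  | zero => simp [NP]
  | succ c ih =>
    show win l (NP l c) _ = _
    rw [win_two l hl]
    · push_cast
      have e1 : (c : ℤ) + 1 + 1 - 1 = c + 1 := by ring
      have e2 : (c : ℤ) + 1 + 1 - 2 = c := by ring
      rw [e1, e2, ih, NP_self l c (by omega)]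
    · intro i hi
      exact NP_zero_of_lt l c _ (by push_cast; omega)

theorem NP_nonneg (l c : ℕ) : ∀ s, 0 ≤ NP l c s := by
  induction c with
  | zero => intro s; simp only [NP]; split <;> norm_num
  | succ c ih =>
    intro s
    show 0 ≤ win l (NP l c) s
    exact Finset.sum_nonneg fun i _ => ih _

theorem NP_two (l c : ℕ) (hl : 2 ≤ l) : 2 * NP l c (c + 2) ≤ c * (c + 1) := by
  induction c with
  | zero => simp [NP]
  | succ c ih =>
    have h1 : NP l (c + 1) ((c + 1 : ℕ) + 2) ≤ NP l c (c + 2) + NP l c (c + 1) + NP l c c := by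
      show win l (NP l c) _ ≤ _
      unfold win
      have hsub : ∑ i ∈ Icc 1 l, NP l c (((c + 1 : ℕ) : ℤ) + 2 - i) ≤
          ∑ i ∈ Icc 1 (l + 1), NP l c (((c + 1 : ℕ) : ℤ) + 2 - i) :=
        Finset.sum_le_sum_of_subset_of_nonneg (Finset.Icc_subset_Icc le_rfl (by omega))
          fun i _ _ => NP_nonneg l c _
      refine hsub.trans (le_of_eq ?_)
      have : Icc 1 (l + 1) = {1, 2, 3} ∪ Icc 4 (l + 1) := by
        ext i
        simp only [Finset.mem_Icc, Finset.mem_union, Finset.mem_insert, Finset.mem_singleton]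
        omega
      rw [this, Finset.sum_union]
      · rw [Finset.sum_eq_zero (s := Icc 4 (l + 1))]
        · rw [Finset.sum_insert (by decide), Finset.sum_pair (by norm_num)]
          push_cast
          have e1 : (c : ℤ) + 1 + 2 - 1 = c + 2 := by ring
          have e2 : (c : ℤ) + 1 + 2 - 2 = c + 1 := by ring
          have e3 : (c : ℤ) + 1 + 2 - 3 = c := by ring
          rw [e1, e2, e3]
          ring
        · intro i hi
          rw [Finset.mem_Icc] at hi
          exact NP_zero_of_lt l c _ (by push_cast; omega)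
      · rw [Finset.disjoint_left]
        intro i hi h2
        simp only [Finset.mem_insert, Finset.mem_singleton] at hi
        rw [Finset.mem_Icc] at h2
        omega
    rw [NP_one l c hl, NP_self l c (by omega)] at h1
    have h2 : ((c + 1 : ℕ) : ℤ) = c + 1 := by push_cast; ring
    rw [h2] at h1 ⊢
    nlinarith

theorem D3 (k l a : ℕ) (hl : 2 ≤ l) (h : a + 2 = k) :
    DD (fun c => NP l c k) (a + 1) (a + 2) ≤ DD (fun c => NP l c k) a (a + 1) := by
  subst h
  unfold DD
  simp only
  have e0 := NP_two l a hl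
  have e1 := NP_one l (a + 1) hl
  have e2 := NP_self l (a + 2) (by omega)
  have e3 : NP l (a + 2 + 1) ((a + 2 : ℕ) : ℤ) = 0 := NP_zero_of_lt l _ _ (by push_cast; omega)
  have f1 : ((a + 1 : ℕ) : ℤ) + 1 = ((a + 2 : ℕ) : ℤ) := by push_cast; ring
  have f0 : ((a : ℕ) : ℤ) + 2 = ((a + 2 : ℕ) : ℤ) := by push_cast; ring
  rw [f0] at e0
  rw [f1] at e1
  have g1 : a + 1 + 1 = a + 2 := rfl
  rw [g1, e1, e2, e3]
  push_cast at *
  nlinarith

end Pool.Agent.Helper30.MS
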