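import Mathlib

/-! MP_8815b4_co, part D of the text: the differences `D_M(p,q)`, D1 and D4 (`U_M`), abstractly. -/

namespace Pool.Agent.Helper30.MS

/-- `D_M(a+1, q) = w(a+1) w(q) - w(a) w(q+1)` -/
def DD (w : ℕ → ℤ) (a q : ℕ) : ℤ := w (a + 1) * w q - w a * w (q + 1)

theorem DD_self (w : ℕ → ℤ) (a : ℕ) : DD w a a = 0 := by unfold DD; ring

theorem DD_succ (w : ℕ → ℕ → ℤ) (hw : ∀ c M, w c (M + 1) = w c M + w (c + 1) M) (M a q : ℕ) :
    DD (fun c => w c (M + 1)) a q = DD (fun c => w c M) a q + DD (fun c => w c M) (a + 1) (q + 1) +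
      DD (fun c => w c M) a (q + 1) + DD (fun c => w c M) (a + 1) q := by
  unfold DD
  simp only [hw]
  ring

/-- D4: the claim `U_M`. The hypotheses are D2 and D3. -/
theorem U (w : ℕ → ℕ → ℤ) (hw : ∀ c M, w c (M + 1) = w c M + w (c + 1) M) (k : ℕ)
    (h0 : ∀ c, k < c → w c 0 = 0) (hD2 : ∀ a q, a < q → 0 ≤ DD (fun c => w c 0) a q)
    (hD3 : ∀ a, a + 2 = k → DD (fun c => w c 0) (a + 1) (a + 2) ≤ DD (fun c => w c 0) a (a + 1))
    (M : ℕ) : ∀ a q s : ℕ, a ≤ q → 2 * k ≤ a + q + s + M + 2 →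
      DD (fun c => w c M) (a + s) (q + s) ≤ DD (fun c => w c M) a q := by
  induction M with
  | zero =>
    intro a q s haq h
    rcases Nat.eq_or_lt_of_le haq with rfl | haq
    · rw [DD_self, DD_self]
    rcases Nat.eq_zero_or_pos s with rfl | hs
    · simp
    rcases Nat.lt_or_ge k (q + s) with hk | hk
    · have h1 : DD (fun c => w c 0) (a + s) (q + s) = 0 := by
        unfold DD
        simp only
        rw [h0 (q + s) hk, h0 (q + s + 1) (by omega)]
        ring
      rw [h1]
      exact hD2 a q haq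
    · have h2 : s = 1 := by omega
      have h3 : q = a + 1 := by omega
      subst h2 h3
      exact hD3 a (by omega)
  | succ M ih =>
    intro a q s haq h
    rcases Nat.eq_or_lt_of_le haq with rfl | haq
    · rw [DD_self, DD_self]
    rcases Nat.eq_zero_or_pos s with rfl | hs
    · simp
    rw [DD_succ w hw, DD_succ w hw]
    have e1 := ih a q (s + 1) haq.le (by omega)
    have e2 := ih (a + 1) (q + 1) (s - 1) (by omega) (by omega)
    have e3 := ih a (q + 1) s (by omega) (by omega)
    have e4 := ih (a + 1) q s (by omega) (by omega)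
    have f2 : a + 1 + (s - 1) = a + s := by omega
    have f2' : q + 1 + (s - 1) = q + s := by omega
    have f3 : q + 1 + s = q + s + 1 := by omega
    have f4 : a + 1 + s = a + s + 1 := by omega
    rw [f2, f2'] at e2
    rw [f3] at e3
    rw [f4] at e4
    have f1 : a + (s + 1) = a + s + 1 := by omega
    have f1' : q + (s + 1) = q + s + 1 := by omega
    rw [f1, f1'] at e1
    linarith

/-- K1 from `U_M`. -/
theorem K1_of_U (w : ℕ → ℕ → ℤ) (k M : ℕ)
    (hU : ∀ a q s : ℕ, a ≤ q → 2 * k ≤ a + q + s + M + 2 →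
      DD (fun c => w c M) (a + s) (q + s) ≤ DD (fun c => w c M) a q)
    (c j : ℕ) (hj : j ≤ c) (h : 2 * k ≤ 2 * c + M + 2) :
    w (c + 1) M * (w (c - j) M + w (c + j) M) ≤ w c M * (w (c - j + 1) M + w (c + j + 1) M) := by
  have h1 := hU (c - j) c j (by omega) (by omega)
  have e : c - j + j = c := by omega
  rw [e] at h1
  unfold DD at h1
  simp only at h1
  linarith

end Pool.Agent.Helper30.MS
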